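import Mathlib.Data.Fintype.Sum
import Mathlib.Data.Fintype.Option
import Mathlib.Data.Finset.Card
import Mathlib.Data.Set.Card
import Mathlib.Algebra.BigOperators.Group.Finset.Basic
import Mathlib.Algebra.Order.BigOperators.Group.Finset
import Mathlib.Tactic

set_option autoImplicit false
set_option linter.unusedSectionVars false

/-!
# MP_0d0d23_co: invariant trade robustness with any number of shift-minimal winning types

For all `r ≥ 2` and `m ≥ 2` there is a complete simple game with exactly `r` shift-minimal winning
types that is `m`-invariant trade robust but not `(m+1)`-invariant trade robust.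
-/

namespace Pool.Agent.Results.MP_0d0d23_co.AllNumbers

open Finset
open scoped Classical

section Defs

variable {V : Type} [Fintype V] [DecidableEq V]

/-- The family `W` of winning coalitions is up-closed. -/
def IsSimpleGame (W : Set (Finset V)) : Prop := ∀ S T : Finset V, S ∈ W → S ⊆ T → T ∈ W

/-- Player `i` is at least as desirable as player `j`. -/
def AtLeastAsDesirable (W : Set (Finset V)) (i j : V) : Prop :=
  ∀ S : Finset V, i ∉ S → j ∉ S → insert j S ∈ W → insert i S ∈ W

/-- The desirability relation is total. -/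
def IsComplete (W : Set (Finset V)) : Prop :=
  ∀ i j : V, AtLeastAsDesirable W i j ∨ AtLeastAsDesirable W j i

/-- The type of a coalition `S`, as a function on the players: for a player `i` in the class `N_k`
(the classes `N_1 > ⋯ > N_t` are those of the desirability relation), the number
`s_k = |S ∩ N_k|` of members of `S` in the class of `i`. -/
noncomputable def typeOf (W : Set (Finset V)) (S : Finset V) (i : V) : ℕ :=
  (S.filter fun j => AtLeastAsDesirable W i j ∧ AtLeastAsDesirable W j i).card

/-- For a player `i` in the class `N_k`, the partial sum `s_1 + ⋯ + s_k` of the type of `S`, that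
is, the number of members of `S` that are at least as desirable as `i`. -/
noncomputable def partialSum (W : Set (Finset V)) (S : Finset V) (i : V) : ℕ :=
  (S.filter fun j => AtLeastAsDesirable W j i).card

/-- The type of `S` is `⪰` the type of `T`: all partial sums are at least as large. -/
def TypeGE (W : Set (Finset V)) (S T : Finset V) : Prop :=
  ∀ i, partialSum W T i ≤ partialSum W S i

/-- The coalition `S` is shift-minimal winning: it is winning and every coalition whose type is
`≺` the type of `S` is losing. -/
def IsShiftMinimalWinning (W : Set (Finset V)) (S : Finset V) : Prop :=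
  S ∈ W ∧ ∀ T : Finset V, TypeGE W S T → typeOf W T ≠ typeOf W S → T ∉ W

/-- The number of shift-minimal winning types. -/
noncomputable def numberOfShiftMinimalWinningTypes (W : Set (Finset V)) : ℕ :=
  (typeOf W '' {S | IsShiftMinimalWinning W S}).ncard

/-- A trading transform `⟨X_1, …, X_j; Y_1, …, Y_j⟩`: every player lies in exactly as many `X_i` as
`Y_i`. -/
def IsTradingTransform {j : ℕ} (X Y : Fin j → Finset V) : Prop :=
  ∀ v : V, (univ.filter fun i => v ∈ X i).card = (univ.filter fun i => v ∈ Y i).card

/-- `m`-invariant trade robustness: there is no trading transform of length `j ≤ m` in which all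
`X_i` are shift-minimal winning and all `Y_i` are losing. -/
def IsInvariantTradeRobust (W : Set (Finset V)) (m : ℕ) : Prop :=
  ¬ ∃ j : ℕ, 1 ≤ j ∧ j ≤ m ∧ ∃ X Y : Fin j → Finset V, IsTradingTransform X Y ∧
    (∀ i, IsShiftMinimalWinning W (X i)) ∧ ∀ i, Y i ∉ W

end Defs

/-! ### The extension by a veto player and a passer -/

section Ext

variable {V : Type} [Fintype V] [DecidableEq V] (W : Set (Finset V))

/-- the old part of a coalition; `none` is the passer and `some none` the veto player -/
noncomputable def old (S : Finset (Option (Option V))) : Finset V :=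
  univ.filter fun i => some (some i) ∈ S

/-- the extended game -/
def Ext : Set (Finset (Option (Option V))) :=
  {S | none ∈ S ∨ (some none ∈ S ∧ old S ∈ W)}

/-- the coalition `S` together with the veto player -/
noncomputable def lift (S : Finset V) : Finset (Option (Option V)) :=
  insert (some none) (S.image fun i => some (some i))

lemma mem_old {S : Finset (Option (Option V))} {i : V} : i ∈ old S ↔ some (some i) ∈ S := by
  simp [old]

lemma none_notMem_lift (S : Finset V) : none ∉ lift S := by simp [lift]

lemma veto_mem_lift (S : Finset V) : some none ∈ lift S := by simp [lift]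

lemma some_mem_lift {S : Finset V} {i : V} : some (some i) ∈ lift S ↔ i ∈ S := by simp [lift]

lemma old_lift (S : Finset V) : old (lift S) = S := by
  ext i
  rw [mem_old, some_mem_lift]

lemma lift_old {S : Finset (Option (Option V))} (h1 : none ∉ S) (h2 : some none ∈ S) :
    lift (old S) = S := by
  ext x
  rcases x with _ | _ | i
  · simp [h1, none_notMem_lift]
  · simp [h2, veto_mem_lift]
  · rw [some_mem_lift, mem_old]

lemma lift_mem_ext {S : Finset V} : lift S ∈ Ext W ↔ S ∈ W := by
  unfold Ext
  simp only [Set.mem_ofPred_eq, none_notMem_lift, veto_mem_lift, old_lift, false_or, true_and]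

variable {W}

lemma ext_simple (h : IsSimpleGame W) : IsSimpleGame (Ext W) := by
  rintro S T (hS | ⟨h1, h2⟩) hST
  · exact Or.inl (hST hS)
  · refine Or.inr ⟨hST h1, h _ _ h2 ?_⟩
    intro i hi
    rw [mem_old] at hi ⊢
    exact hST hi

/-- conditions that are preserved by the extension -/
structure Nice (W : Set (Finset V)) : Prop where
  simple : IsSimpleGame W
  complete : IsComplete W
  empty : (∅ : Finset V) ∉ W
  nonempty : ∃ S, S ∈ W
  noVeto : ∀ i, ∃ S ∈ W, i ∉ S

lemma des_refl (W : Set (Finset V)) (i : V) : AtLeastAsDesirable W i i :=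
  fun _ _ _ h => h

lemma des_passer (x : Option (Option V)) : AtLeastAsDesirable (Ext W) none x := by
  intro S _ _ _
  exact Or.inl (Finset.mem_insert_self _ _)

lemma not_des_passer (hW : Nice W) {x : Option (Option V)} (hx : x ≠ none) :
    ¬ AtLeastAsDesirable (Ext W) x none := by
  intro h
  have h1 := h ∅ (by simp) (by simp) (Or.inl (Finset.mem_insert_self _ _))
  rcases h1 with h1 | ⟨h1, h2⟩
  · simp at h1
    exact hx h1.symm
  · simp at h1
    subst h1
    apply hW.empty
    have : old (insert (some none) (∅ : Finset (Option (Option V)))) = ∅ := by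
      ext i; simp [mem_old]
    rwa [this] at h2

lemma des_veto (i : V) : AtLeastAsDesirable (Ext W) (some none) (some (some i)) := by
  intro S h1 h2 h3
  rcases h3 with h3 | ⟨h3, h4⟩
  · left
    simp at h3
    exact Finset.mem_insert_of_mem h3
  · simp at h3
    exact absurd h3 h1

lemma not_des_veto (hW : Nice W) (i : V) :
    ¬ AtLeastAsDesirable (Ext W) (some (some i)) (some none) := by
  intro h
  obtain ⟨S, hS, hi⟩ := hW.noVeto i
  have h1 := h (S.image fun j => some (some j)) (by simpa using hi) (by simp) (by
    right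
    refine ⟨Finset.mem_insert_self _ _, ?_⟩
    have : old (insert (some none) (S.image fun j => some (some j))) = S := old_lift S
    rwa [this])
  rcases h1 with h1 | ⟨h1, h2⟩
  · simp at h1
  · simp at h1

lemma des_old {i j : V} :
    AtLeastAsDesirable (Ext W) (some (some i)) (some (some j)) ↔ AtLeastAsDesirable W i j := by
  constructor
  · intro h S hi hj hS
    have h1 := h (lift S) (by rwa [some_mem_lift]) (by rwa [some_mem_lift]) (by
      right
      refine ⟨Finset.mem_insert_of_mem (veto_mem_lift S), ?_⟩
      have : old (insert (some (some j)) (lift S)) = insert j S := by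
        ext x; simp [mem_old, some_mem_lift]
      rwa [this])
    rcases h1 with h1 | ⟨_, h2⟩
    · simp [none_notMem_lift] at h1
    · have : old (insert (some (some i)) (lift S)) = insert i S := by
        ext x; simp [mem_old, some_mem_lift]
      rwa [this] at h2
  · intro h S hi hj hS
    have key : ∀ k : V, old (insert (some (some k)) S) = insert k (old S) := by
      intro k
      ext x; simp [mem_old]
    rcases hS with h1 | ⟨h1, h2⟩
    · left
      simp at h1
      exact Finset.mem_insert_of_mem h1
    · right
      simp at h1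
      refine ⟨Finset.mem_insert_of_mem h1, ?_⟩
      rw [key] at h2 ⊢
      exact h (old S) (by rwa [mem_old]) (by rwa [mem_old]) h2

lemma ext_complete (hW : Nice W) : IsComplete (Ext W) := by
  rintro (_ | _ | i) (_ | _ | j)
  · exact Or.inl (des_refl _ _)
  · exact Or.inl (des_passer _)
  · exact Or.inl (des_passer _)
  · exact Or.inr (des_passer _)
  · exact Or.inl (des_refl _ _)
  · exact Or.inl (des_veto j)
  · exact Or.inr (des_passer _)
  · exact Or.inr (des_veto i)
  · rcases hW.complete i j with h | h
    · exact Or.inl (des_old.mpr h)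
    · exact Or.inr (des_old.mpr h)

lemma ext_nice (hW : Nice W) : Nice (Ext W) where
  simple := ext_simple hW.simple
  complete := ext_complete hW
  empty := by
    rintro (h | ⟨h, _⟩) <;> simp at h
  nonempty := ⟨{none}, Or.inl (Finset.mem_singleton_self _)⟩
  noVeto := by
    rintro (_ | _ | i)
    · obtain ⟨S, hS⟩ := hW.nonempty
      exact ⟨lift S, (lift_mem_ext W).mpr hS, none_notMem_lift S⟩
    · exact ⟨{none}, Or.inl (Finset.mem_singleton_self _), by simp⟩
    · exact ⟨{none}, Or.inl (Finset.mem_singleton_self _), by simp⟩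

/-! types in the extension -/

lemma partialSum_passer (hW : Nice W) (S : Finset (Option (Option V))) :
    partialSum (Ext W) S none = if none ∈ S then 1 else 0 := by
  unfold partialSum
  have : (S.filter fun j => AtLeastAsDesirable (Ext W) j none) =
      if none ∈ S then {none} else ∅ := by
    ext j
    rw [Finset.mem_filter]
    constructor
    · rintro ⟨h1, h2⟩
      have hj : j = none := by
        by_contra hne
        exact not_des_passer hW hne h2
      subst hj
      rw [if_pos h1]
      exact Finset.mem_singleton_self _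
    · intro h
      split_ifs at h with h1
      · rw [Finset.mem_singleton] at h
        subst h
        exact ⟨h1, des_refl _ _⟩
      · simp at h
  rw [this]
  split_ifs <;> simp

lemma partialSum_old (S : Finset V) (i : V) :
    partialSum (Ext W) (lift S) (some (some i)) = partialSum W S i + 1 := by
  unfold partialSum
  have : ((lift S).filter fun j => AtLeastAsDesirable (Ext W) j (some (some i))) =
      insert (some none) ((S.filter fun j => AtLeastAsDesirable W j i).image
        fun j => some (some j)) := by
    ext x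
    rcases x with _ | _ | j
    · simp [none_notMem_lift]
    · simp [veto_mem_lift, des_veto i]
    · simp [some_mem_lift, des_old]
  rw [this, Finset.card_insert_of_notMem (by simp), Finset.card_image_of_injective]
  intro a b h
  simpa using h

lemma typeOf_old (hW : Nice W) (S : Finset V) (i : V) :
    typeOf (Ext W) (lift S) (some (some i)) = typeOf W S i := by
  unfold typeOf
  have : ((lift S).filter fun j => AtLeastAsDesirable (Ext W) (some (some i)) j ∧
      AtLeastAsDesirable (Ext W) j (some (some i))) =
      ((S.filter fun j => AtLeastAsDesirable W i j ∧ AtLeastAsDesirable W j i).image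
        fun j => some (some j)) := by
    ext x
    rcases x with _ | _ | j
    · simp [none_notMem_lift]
    · simp [veto_mem_lift, not_des_veto hW i]
    · simp [some_mem_lift, des_old]
  rw [this, Finset.card_image_of_injective]
  intro a b h
  simpa using h

lemma typeOf_passer (hW : Nice W) (S : Finset (Option (Option V))) :
    typeOf (Ext W) S none = if none ∈ S then 1 else 0 := by
  unfold typeOf
  have : (S.filter fun j => AtLeastAsDesirable (Ext W) none j ∧
      AtLeastAsDesirable (Ext W) j none) = if none ∈ S then {none} else ∅ := by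
    ext j
    rw [Finset.mem_filter]
    constructor
    · rintro ⟨h1, _, h2⟩
      have hj : j = none := by
        by_contra hne
        exact not_des_passer hW hne h2
      subst hj
      rw [if_pos h1]
      exact Finset.mem_singleton_self _
    · intro h
      split_ifs at h with h1
      · rw [Finset.mem_singleton] at h
        subst h
        exact ⟨h1, des_refl _ _, des_refl _ _⟩
      · simp at h
  rw [this]
  split_ifs <;> simp

lemma typeOf_veto (hW : Nice W) (S : Finset (Option (Option V))) :
    typeOf (Ext W) S (some none) = if some none ∈ S then 1 else 0 := by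
  unfold typeOf
  have : (S.filter fun j => AtLeastAsDesirable (Ext W) (some none) j ∧
      AtLeastAsDesirable (Ext W) j (some none)) = S.filter fun j => j = some none := by
    apply Finset.filter_congr
    intro j _
    constructor
    · rintro ⟨h1, h2⟩
      rcases j with _ | _ | j
      · exact absurd h1 (not_des_passer hW (by simp))
      · rfl
      · exact absurd h2 (not_des_veto hW j)
    · rintro rfl
      exact ⟨des_refl _ _, des_refl _ _⟩
  rw [this, Finset.filter_eq']
  split_ifs <;> simp

/-- a coalition of the type of `{none}` is `{none}` -/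
lemma typeOf_pos {W : Set (Finset V)} {S : Finset V} {i : V} (hi : i ∈ S) : 0 < typeOf W S i := by
  unfold typeOf
  rw [Finset.card_pos]
  exact ⟨i, by simp [hi, des_refl]⟩

lemma eq_of_typeOf_eq (hW : Nice W) {S : Finset (Option (Option V))}
    (h : typeOf (Ext W) S = typeOf (Ext W) {none}) : S = {none} := by
  have h0 : ∀ x : Option (Option V), x ≠ none → x ∉ S := by
    intro x hx hxS
    have h1 := typeOf_pos (W := Ext W) hxS
    rw [h] at h1
    unfold typeOf at h1
    rw [Finset.card_pos] at h1
    obtain ⟨y, hy⟩ := h1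
    rw [Finset.mem_filter, Finset.mem_singleton] at hy
    obtain ⟨rfl, hy1, _⟩ := hy
    exact not_des_passer hW hx hy1
  have h1 : none ∈ S := by
    have := congrFun h none
    rw [typeOf_passer hW, typeOf_passer hW] at this
    simp at this
    exact this
  ext x
  rw [Finset.mem_singleton]
  constructor
  · intro hx
    by_contra hne
    exact h0 x hne hx
  · rintro rfl
    exact h1

lemma typeOf_lift_eq (hW : Nice W) {S T : Finset V} :
    typeOf (Ext W) (lift S) = typeOf (Ext W) (lift T) ↔ typeOf W S = typeOf W T := by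
  constructor
  · intro h
    funext i
    have := congrFun h (some (some i))
    rwa [typeOf_old hW, typeOf_old hW] at this
  · intro h
    funext x
    rcases x with _ | _ | i
    · rw [typeOf_passer hW, typeOf_passer hW]
      simp [none_notMem_lift]
    · rw [typeOf_veto hW, typeOf_veto hW]
      simp [veto_mem_lift]
    · rw [typeOf_old hW, typeOf_old hW, h]

lemma typeGE_lift (hW : Nice W) {S T : Finset V} (h : TypeGE W S T) :
    TypeGE (Ext W) (lift S) (lift T) := by
  rintro (_ | _ | i)
  · rw [partialSum_passer hW, partialSum_passer hW]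
    simp [none_notMem_lift]
  · unfold partialSum
    have : ∀ S : Finset V, ((lift S).filter fun j => AtLeastAsDesirable (Ext W) j (some none)) =
        {some none} := by
      intro S
      ext x
      rcases x with _ | _ | j
      · simp [none_notMem_lift]
      · simp [veto_mem_lift, des_refl]
      · simp [not_des_veto hW j]
    rw [this, this]
  · rw [partialSum_old, partialSum_old]
    have := h i
    omega

lemma shiftMin_passer (hW : Nice W) : IsShiftMinimalWinning (Ext W) {none} := by
  refine ⟨Or.inl (Finset.mem_singleton_self _), ?_⟩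
  intro T hT hne hTW
  have hcard : T.card ≤ 1 := by
    rw [Finset.card_le_one]
    intro a ha b hb
    by_contra hab
    wlog hdes : AtLeastAsDesirable (Ext W) a b generalizing a b
    · exact this b hb a ha (fun h => hab h.symm)
        (((ext_complete hW) a b).resolve_left hdes)
    have h1 : partialSum (Ext W) {none} b ≤ 1 := by
      unfold partialSum
      exact (Finset.card_filter_le _ _).trans (by simp)
    have h2 : 2 ≤ partialSum (Ext W) T b := by
      unfold partialSum
      rw [← Finset.card_pair hab]
      apply Finset.card_le_card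
      intro x hx
      rw [Finset.mem_insert, Finset.mem_singleton] at hx
      rw [Finset.mem_filter]
      rcases hx with rfl | rfl
      · exact ⟨ha, hdes⟩
      · exact ⟨hb, des_refl _ _⟩
    have := hT b
    omega
  rcases hTW with h | ⟨h1, h2⟩
  · apply hne
    congr 1
    exact Finset.eq_singleton_iff_unique_mem.mpr ⟨h, fun x hx => Finset.card_le_one.mp hcard x hx _ h⟩
  · apply hW.empty
    have : old T = ∅ := by
      ext i
      rw [mem_old]
      simp only [Finset.notMem_empty, iff_false]
      intro hi
      have := Finset.card_le_one.mp hcard _ hi _ h1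
      simp at this
    rwa [this] at h2

lemma shiftMin_lift (hW : Nice W) {S : Finset V} (hS : IsShiftMinimalWinning W S) :
    IsShiftMinimalWinning (Ext W) (lift S) := by
  refine ⟨(lift_mem_ext W).mpr hS.1, ?_⟩
  intro T hT hne hTW
  have hp : none ∉ T := by
    intro h
    have := hT none
    rw [partialSum_passer hW, partialSum_passer hW, if_pos h, if_neg (none_notMem_lift S)] at this
    omega
  have h2 := hTW.resolve_left hp
  have hlift := lift_old hp h2.1
  rw [← hlift] at hT hne
  refine hS.2 (old T) ?_ ?_ h2.2
  · intro i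
    have := hT (some (some i))
    rw [partialSum_old, partialSum_old] at this
    omega
  · intro h
    exact hne ((typeOf_lift_eq hW).mpr h)

lemma shiftMin_cases (hW : Nice W) {S : Finset (Option (Option V))}
    (hS : IsShiftMinimalWinning (Ext W) S) :
    S = {none} ∨ ∃ T, IsShiftMinimalWinning W T ∧ S = lift T := by
  by_cases hp : none ∈ S
  · left
    by_contra hne
    apply hS.2 {none} _ _ (Or.inl (Finset.mem_singleton_self _))
    · intro i
      unfold partialSum
      apply Finset.card_le_card
      intro x hx
      rw [Finset.mem_filter, Finset.mem_singleton] at hx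
      rw [Finset.mem_filter]
      exact ⟨hx.1 ▸ hp, hx.2⟩
    · intro h
      exact hne (eq_of_typeOf_eq hW h.symm)
  · right
    have h2 := hS.1.resolve_left hp
    have hlift := lift_old hp h2.1
    refine ⟨old S, ⟨h2.2, ?_⟩, hlift.symm⟩
    intro T hT hne hTW
    apply hS.2 (lift T) _ _ ((lift_mem_ext W).mpr hTW)
    · rw [← hlift]
      exact typeGE_lift hW hT
    · rw [← hlift]
      intro h
      exact hne ((typeOf_lift_eq hW).mp h)

lemma ext_number (hW : Nice W) :
    numberOfShiftMinimalWinningTypes (Ext W) = numberOfShiftMinimalWinningTypes W + 1 := by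
  unfold numberOfShiftMinimalWinningTypes
  -- extend a type by the coordinates of the passer and of the veto player
  let F : (V → ℕ) → (Option (Option V) → ℕ) := fun f x =>
    match x with
    | none => 0
    | some none => 1
    | some (some i) => f i
  have hF : ∀ S : Finset V, typeOf (Ext W) (lift S) = F (typeOf W S) := by
    intro S
    funext x
    rcases x with _ | _ | i
    · rw [typeOf_passer hW, if_neg (none_notMem_lift S)]
    · rw [typeOf_veto hW, if_pos (veto_mem_lift S)]
    · rw [typeOf_old hW]
  have hFinj : Function.Injective F := by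
    intro f g h
    funext i
    exact congrFun h (some (some i))
  have himg : typeOf (Ext W) '' {S | IsShiftMinimalWinning (Ext W) S} =
      insert (typeOf (Ext W) {none}) (F '' (typeOf W '' {S | IsShiftMinimalWinning W S})) := by
    ext t
    constructor
    · rintro ⟨S, hS, rfl⟩
      rcases shiftMin_cases hW hS with rfl | ⟨T, hT, rfl⟩
      · exact Set.mem_insert _ _
      · right
        exact ⟨_, ⟨T, hT, rfl⟩, (hF T).symm⟩
    · rintro (rfl | ⟨_, ⟨T, hT, rfl⟩, rfl⟩)
      · exact ⟨_, shiftMin_passer hW, rfl⟩
      · exact ⟨_, shiftMin_lift hW hT, hF T⟩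
  have hfin : (typeOf W '' {S | IsShiftMinimalWinning W S}).Finite := (Set.toFinite _).image _
  rw [himg, Set.ncard_insert_of_notMem _ (hfin.image F), Set.ncard_image_of_injective _ hFinj]
  rintro ⟨f, _, h⟩
  have := congrFun h none
  rw [typeOf_passer hW] at this
  simp [F] at this

/-! trading transforms in the extension -/

lemma ext_robust (hW : Nice W) (m : ℕ) :
    IsInvariantTradeRobust (Ext W) m ↔ IsInvariantTradeRobust W m := by
  unfold IsInvariantTradeRobust
  rw [not_iff_not]
  constructor
  · rintro ⟨j, h1, hj, X, Y, hXY, hX, hY⟩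
    have hYp : ∀ i, none ∉ Y i := fun i h => hY i (Or.inl h)
    have hXp : ∀ i, none ∉ X i := by
      intro i h
      have h2 := hXY none
      have h3 : (univ.filter fun i => none ∈ Y i).card = 0 := by
        rw [Finset.card_eq_zero, Finset.filter_eq_empty_iff]
        intro i _
        exact hYp i
      rw [h3, Finset.card_eq_zero, Finset.filter_eq_empty_iff] at h2
      exact h2 (Finset.mem_univ i) h
    have hXl : ∀ i, ∃ T, IsShiftMinimalWinning W T ∧ X i = lift T := by
      intro i
      rcases shiftMin_cases hW (hX i) with h | h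
      · exfalso
        apply hXp i
        rw [h]
        exact Finset.mem_singleton_self _
      · exact h
    choose T hT hTX using hXl
    have hYv : ∀ i, some none ∈ Y i := by
      have h2 := hXY (some none)
      have h3 : (univ.filter fun i => some none ∈ X i) = univ := by
        rw [Finset.filter_eq_self]
        intro i _
        rw [hTX i]
        exact veto_mem_lift _
      rw [h3] at h2
      have h4 : (univ.filter fun i => some none ∈ Y i) = univ :=
        Finset.eq_univ_of_card _ (by rw [← h2, Finset.card_univ])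
      rw [Finset.filter_eq_self] at h4
      exact fun i => h4 i (Finset.mem_univ i)
    refine ⟨j, h1, hj, T, fun i => old (Y i), ?_, hT, ?_⟩
    · intro v
      have h2 := hXY (some (some v))
      simp only [hTX, some_mem_lift] at h2
      simp only [mem_old]
      exact h2
    · intro i h
      exact hY i (Or.inr ⟨hYv i, h⟩)
  · rintro ⟨j, h1, hj, X, Y, hXY, hX, hY⟩
    refine ⟨j, h1, hj, fun i => lift (X i), fun i => lift (Y i), ?_,
      fun i => shiftMin_lift hW (hX i), fun i h => hY i ((lift_mem_ext W).mp h)⟩
    rintro (_ | _ | v)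
    · simp [none_notMem_lift]
    · simp [veto_mem_lift]
    · simp only [some_mem_lift]
      exact hXY v

end Ext

/-! ### The base game -/

section Base

/-- the players: two players of class `0`, `N` of class `1`, `N` of class `2` -/
abbrev Pl (N : ℕ) : Type := Fin 2 ⊕ (Fin N ⊕ Fin N)

/-- the class of a player -/
def cl {N : ℕ} : Pl N → ℕ
  | Sum.inl _ => 0
  | Sum.inr (Sum.inl _) => 1
  | Sum.inr (Sum.inr _) => 2

/-- the number of members of class at most `k` -/
noncomputable def ps {N : ℕ} (S : Finset (Pl N)) (k : ℕ) : ℕ := (S.filter fun v => cl v ≤ k).card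

/-- the base game -/
def Base (N : ℕ) : Set (Finset (Pl N)) :=
  {S | (2 ≤ ps S 0 ∧ 3 ≤ ps S 2) ∨ (1 ≤ ps S 0 ∧ 2 ≤ ps S 1 ∧ N + 1 ≤ ps S 2)}

variable {N : ℕ}

lemma ps_mono {S T : Finset (Pl N)} (h : S ⊆ T) (k : ℕ) : ps S k ≤ ps T k :=
  Finset.card_le_card (Finset.filter_subset_filter _ h)

lemma ps_le {S : Finset (Pl N)} {k l : ℕ} (h : k ≤ l) : ps S k ≤ ps S l := by
  apply Finset.card_le_card
  intro v hv
  rw [Finset.mem_filter] at hv ⊢
  exact ⟨hv.1, hv.2.trans h⟩

lemma ps_insert {S : Finset (Pl N)} {v : Pl N} (hv : v ∉ S) (k : ℕ) :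
    ps (insert v S) k = ps S k + if cl v ≤ k then 1 else 0 := by
  unfold ps
  rw [Finset.filter_insert]
  split_ifs with h
  · rw [Finset.card_insert_of_notMem]
    intro h1
    exact hv (Finset.mem_filter.mp h1).1
  · rfl

lemma base_simple : IsSimpleGame (Base N) := by
  intro S T hS hST
  have h0 := ps_mono hST 0
  have h1 := ps_mono hST 1
  have h2 := ps_mono hST 2
  rcases hS with h | h
  · left; omega
  · right; omega

lemma des_of_le {i j : Pl N} (h : cl i ≤ cl j) : AtLeastAsDesirable (Base N) i j := by
  intro S hi hj hS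
  have key : ∀ k, ps (insert j S) k ≤ ps (insert i S) k := by
    intro k
    rw [ps_insert hi, ps_insert hj]
    split_ifs <;> omega
  have h0 := key 0
  have h1 := key 1
  have h2 := key 2
  rcases hS with h | h
  · left; omega
  · right; omega

lemma base_complete : IsComplete (Base N) := by
  intro i j
  rcases le_total (cl i) (cl j) with h | h
  · exact Or.inl (des_of_le h)
  · exact Or.inr (des_of_le h)

/-- the members of a coalition of class `0`, `1`, `2` -/
lemma ps_top (S : Finset (Pl N)) : ps S 2 = S.card := by
  unfold ps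
  rw [Finset.filter_true_of_mem]
  rintro (i | i | i) _ <;> simp [cl]

/-- the number of members of class `k` -/
noncomputable def cn (S : Finset (Pl N)) (k : ℕ) : ℕ := (S.filter fun v => cl v = k).card

lemma ps_zero (S : Finset (Pl N)) : ps S 0 = cn S 0 := by
  unfold ps cn
  congr 1
  ext v
  simp

lemma ps_succ (S : Finset (Pl N)) (k : ℕ) : ps S (k + 1) = ps S k + cn S (k + 1) := by
  unfold ps cn
  rw [← Finset.card_union_of_disjoint]
  · congr 1
    ext v
    simp only [Finset.mem_filter, Finset.mem_union]
    constructor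
    · rintro ⟨h1, h2⟩
      rcases Nat.lt_or_ge k (cl v) with h | h
      · exact Or.inr ⟨h1, by omega⟩
      · exact Or.inl ⟨h1, h⟩
    · rintro (⟨h1, h2⟩ | ⟨h1, h2⟩)
      · exact ⟨h1, by omega⟩
      · exact ⟨h1, by omega⟩
  · rw [Finset.disjoint_left]
    intro v h1 h2
    rw [Finset.mem_filter] at h1 h2
    omega

/-- the coalition with prescribed members of the three classes -/
def mk (P : Finset (Fin 2)) (Q R : Finset (Fin N)) : Finset (Pl N) := P.disjSum (Q.disjSum R)

lemma mem_mk0 {P : Finset (Fin 2)} {Q R : Finset (Fin N)} {i : Fin 2} :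
    (Sum.inl i : Pl N) ∈ mk P Q R ↔ i ∈ P := by simp [mk]

lemma mem_mk1 {P : Finset (Fin 2)} {Q R : Finset (Fin N)} {i : Fin N} :
    (Sum.inr (Sum.inl i) : Pl N) ∈ mk P Q R ↔ i ∈ Q := by simp [mk]

lemma mem_mk2 {P : Finset (Fin 2)} {Q R : Finset (Fin N)} {i : Fin N} :
    (Sum.inr (Sum.inr i) : Pl N) ∈ mk P Q R ↔ i ∈ R := by simp [mk]

lemma cn_mk0 (P : Finset (Fin 2)) (Q R : Finset (Fin N)) : cn (mk P Q R) 0 = P.card := by
  unfold cn
  have : ((mk P Q R).filter fun v => cl v = 0) = P.map ⟨Sum.inl, Sum.inl_injective⟩ := by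
    ext v
    rw [Finset.mem_filter]
    rcases v with i | i | i <;> simp [mk, cl]
  rw [this, Finset.card_map]

lemma cn_mk1 (P : Finset (Fin 2)) (Q R : Finset (Fin N)) : cn (mk P Q R) 1 = Q.card := by
  unfold cn
  have : ((mk P Q R).filter fun v => cl v = 1) =
      Q.image fun i => (Sum.inr (Sum.inl i) : Pl N) := by
    ext v
    rw [Finset.mem_filter]
    rcases v with i | i | i <;> simp [mk, cl]
  rw [this, Finset.card_image_of_injective]
  intro _ _ h
  simpa using h

lemma cn_mk2 (P : Finset (Fin 2)) (Q R : Finset (Fin N)) : cn (mk P Q R) 2 = R.card := by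
  unfold cn
  have : ((mk P Q R).filter fun v => cl v = 2) =
      R.image fun i => (Sum.inr (Sum.inr i) : Pl N) := by
    ext v
    rw [Finset.mem_filter]
    rcases v with i | i | i <;> simp [mk, cl]
  rw [this, Finset.card_image_of_injective]
  intro _ _ h
  simpa using h

lemma exists_mk (S : Finset (Pl N)) : ∃ P Q R, S = mk P Q R := by
  refine ⟨univ.filter fun i => (Sum.inl i : Pl N) ∈ S,
    univ.filter fun i => (Sum.inr (Sum.inl i) : Pl N) ∈ S,
    univ.filter fun i => (Sum.inr (Sum.inr i) : Pl N) ∈ S, ?_⟩
  ext v
  rcases v with i | i | i <;> simp [mk]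

lemma cn_le (S : Finset (Pl N)) : cn S 0 ≤ 2 ∧ cn S 1 ≤ N ∧ cn S 2 ≤ N := by
  obtain ⟨P, Q, R, rfl⟩ := exists_mk S
  rw [cn_mk0, cn_mk1, cn_mk2]
  refine ⟨?_, ?_, ?_⟩
  · exact (Finset.card_le_univ P).trans (by simp)
  · exact (Finset.card_le_univ Q).trans (by simp)
  · exact (Finset.card_le_univ R).trans (by simp)

lemma ps_one (S : Finset (Pl N)) : ps S 1 = cn S 0 + cn S 1 := by
  rw [ps_succ S 0, ps_zero]

lemma ps_two (S : Finset (Pl N)) : ps S 2 = cn S 0 + cn S 1 + cn S 2 := by
  rw [ps_succ S 1, ps_one]

lemma mem_base (S : Finset (Pl N)) : S ∈ Base N ↔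
    (2 ≤ cn S 0 ∧ 3 ≤ cn S 0 + cn S 1 + cn S 2) ∨
      (1 ≤ cn S 0 ∧ 2 ≤ cn S 0 + cn S 1 ∧ N + 1 ≤ cn S 0 + cn S 1 + cn S 2) := by
  unfold Base
  rw [Set.mem_ofPred_eq, ps_two, ps_one, ps_zero]

lemma cn_insert {S : Finset (Pl N)} {v : Pl N} (hv : v ∉ S) (k : ℕ) :
    cn (insert v S) k = cn S k + if cl v = k then 1 else 0 := by
  unfold cn
  rw [Finset.filter_insert]
  split_ifs with h
  · rw [Finset.card_insert_of_notMem]
    intro h1
    exact hv (Finset.mem_filter.mp h1).1
  · rfl

lemma not_des (hN : 3 ≤ N) {i j : Pl N} (h : cl i < cl j) : ¬ AtLeastAsDesirable (Base N) j i := by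
  intro hd
  rcases i with i | i | i
  · -- class 0 against class 1 or 2
    obtain ⟨c, hc⟩ : ∃ c : Fin N, (Sum.inr (Sum.inr c) : Pl N) ≠ j := by
      rcases j with j | j | j
      · exact ⟨⟨0, by omega⟩, by simp⟩
      · exact ⟨⟨0, by omega⟩, by simp⟩
      · by_cases h0 : j = ⟨0, by omega⟩
        · refine ⟨⟨1, by omega⟩, ?_⟩
          rw [h0]
          simp
        · exact ⟨⟨0, by omega⟩, fun h1 => h0 (by simpa using h1.symm)⟩
    have hi : (Sum.inl i : Pl N) ∉ mk (univ.erase i) ∅ {c} := by
      rw [mem_mk0]; simp
    have hj : j ∉ mk (univ.erase i) ∅ {c} := by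
      rcases j with j | j | j
      · simp [cl] at h
      · rw [mem_mk1]; simp
      · rw [mem_mk2, Finset.mem_singleton]
        intro h1
        apply hc
        rw [h1]
    have hcard : (univ.erase i : Finset (Fin 2)).card = 1 := by
      rw [Finset.card_erase_of_mem (Finset.mem_univ i)]
      simp
    have h1 := hd (mk (univ.erase i) ∅ {c}) hj hi (by
      rw [mem_base]
      simp only [cn_insert hi, cn_mk0, cn_mk1, cn_mk2, hcard, cl, Finset.card_empty,
        Finset.card_singleton]
      left
      simp)
    rw [mem_base] at h1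
    simp only [cn_insert hj, cn_mk0, cn_mk1, cn_mk2, hcard, Finset.card_empty,
      Finset.card_singleton] at h1
    have hj0 : 0 < cl j := h
    split_ifs at h1 <;> omega
  · rcases j with j | j | j
    · simp [cl] at h
    · simp [cl] at h
    · have hi : (Sum.inr (Sum.inl i) : Pl N) ∉ mk {0} ∅ (univ.erase j) := by
        rw [mem_mk1]; simp
      have hj : (Sum.inr (Sum.inr j) : Pl N) ∉ mk {0} ∅ (univ.erase j) := by
        rw [mem_mk2]; simp
      have hcard : (univ.erase j : Finset (Fin N)).card = N - 1 := by
        rw [Finset.card_erase_of_mem (Finset.mem_univ j)]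
        simp
      have h1 := hd (mk {0} ∅ (univ.erase j)) hj hi (by
        rw [mem_base]
        simp only [cn_insert hi, cn_mk0, cn_mk1, cn_mk2, hcard, cl, Finset.card_empty,
          Finset.card_singleton]
        right
        simp
        omega)
      rw [mem_base] at h1
      simp only [cn_insert hj, cn_mk0, cn_mk1, cn_mk2, hcard, cl, Finset.card_empty,
        Finset.card_singleton] at h1
      simp at h1
  · rcases j with j | j | j <;> simp [cl] at h

lemma des_iff (hN : 3 ≤ N) {i j : Pl N} : AtLeastAsDesirable (Base N) i j ↔ cl i ≤ cl j := by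
  constructor
  · intro h
    by_contra hcon
    push Not at hcon
    exact not_des hN hcon h
  · exact des_of_le

lemma partialSum_base (hN : 3 ≤ N) (S : Finset (Pl N)) (i : Pl N) :
    partialSum (Base N) S i = ps S (cl i) := by
  unfold partialSum ps
  congr 1
  ext v
  simp only [Finset.mem_filter, des_iff hN]

lemma typeOf_base (hN : 3 ≤ N) (S : Finset (Pl N)) (i : Pl N) :
    typeOf (Base N) S i = cn S (cl i) := by
  unfold typeOf cn
  congr 1
  ext v
  simp only [Finset.mem_filter, des_iff hN]
  constructor
  · rintro ⟨h1, h2, h3⟩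
    exact ⟨h1, by omega⟩
  · rintro ⟨h1, h2⟩
    exact ⟨h1, by omega, by omega⟩

lemma typeGE_base (hN : 3 ≤ N) (S T : Finset (Pl N)) :
    TypeGE (Base N) S T ↔ ps T 0 ≤ ps S 0 ∧ ps T 1 ≤ ps S 1 ∧ ps T 2 ≤ ps S 2 := by
  unfold TypeGE
  simp only [partialSum_base hN]
  constructor
  · intro h
    exact ⟨h (Sum.inl 0), h (Sum.inr (Sum.inl ⟨0, by omega⟩)),
      h (Sum.inr (Sum.inr ⟨0, by omega⟩))⟩
  · rintro ⟨h0, h1, h2⟩ (i | i | i)
    · exact h0
    · exact h1
    · exact h2

lemma typeOf_eq_base (hN : 3 ≤ N) (S T : Finset (Pl N)) :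
    typeOf (Base N) S = typeOf (Base N) T ↔
      cn S 0 = cn T 0 ∧ cn S 1 = cn T 1 ∧ cn S 2 = cn T 2 := by
  constructor
  · intro h
    have h0 := congrFun h (Sum.inl 0)
    have h1 := congrFun h (Sum.inr (Sum.inl ⟨0, by omega⟩))
    have h2 := congrFun h (Sum.inr (Sum.inr ⟨0, by omega⟩))
    rw [typeOf_base hN, typeOf_base hN] at h0 h1 h2
    exact ⟨h0, h1, h2⟩
  · rintro ⟨h0, h1, h2⟩
    funext i
    rw [typeOf_base hN, typeOf_base hN]
    rcases i with i | i | i
    · exact h0
    · exact h1
    · exact h2

/-- a coalition of type `(2, 0, 1)` -/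
def TA (hN : 3 ≤ N) : Finset (Pl N) := mk univ ∅ {⟨0, by omega⟩}

/-- a coalition of type `(1, 1, N - 1)` -/
def TB (hN : 3 ≤ N) : Finset (Pl N) :=
  mk {0} {⟨0, by omega⟩} (univ.erase ⟨0, by omega⟩)

lemma cn_TA (hN : 3 ≤ N) : cn (TA hN) 0 = 2 ∧ cn (TA hN) 1 = 0 ∧ cn (TA hN) 2 = 1 := by
  unfold TA
  rw [cn_mk0, cn_mk1, cn_mk2]
  simp

lemma cn_TB (hN : 3 ≤ N) : cn (TB hN) 0 = 1 ∧ cn (TB hN) 1 = 1 ∧ cn (TB hN) 2 = N - 1 := by
  unfold TB
  rw [cn_mk0, cn_mk1, cn_mk2, Finset.card_erase_of_mem (Finset.mem_univ _)]
  simp

lemma shiftMin_base (hN : 3 ≤ N) (S : Finset (Pl N)) :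
    IsShiftMinimalWinning (Base N) S ↔ (cn S 0 = 2 ∧ cn S 1 = 0 ∧ cn S 2 = 1) ∨
      (cn S 0 = 1 ∧ cn S 1 = 1 ∧ cn S 2 = N - 1) := by
  obtain ⟨a0, a1, a2⟩ := cn_TA hN
  obtain ⟨b0, b1, b2⟩ := cn_TB hN
  obtain ⟨c0, c1, c2⟩ := cn_le S
  constructor
  · rintro ⟨hS, hmin⟩
    rw [mem_base] at hS
    rcases hS with h | h
    · left
      by_contra hne
      apply hmin (TA hN)
      · rw [typeGE_base hN, ps_zero, ps_zero, ps_one, ps_one, ps_two, ps_two]
        omega
      · rw [Ne, typeOf_eq_base hN]
        omega
      · rw [mem_base]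
        omega
    · right
      by_contra hne
      apply hmin (TB hN)
      · rw [typeGE_base hN, ps_zero, ps_zero, ps_one, ps_one, ps_two, ps_two]
        omega
      · rw [Ne, typeOf_eq_base hN]
        omega
      · rw [mem_base]
        omega
  · intro h
    refine ⟨?_, ?_⟩
    · rw [mem_base]
      omega
    · intro T hT hne hTW
      rw [typeGE_base hN, ps_zero, ps_zero, ps_one, ps_one, ps_two, ps_two] at hT
      rw [Ne, typeOf_eq_base hN] at hne
      rw [mem_base] at hTW
      omega

lemma number_base (hN : 3 ≤ N) : numberOfShiftMinimalWinningTypes (Base N) = 2 := by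
  obtain ⟨a0, a1, a2⟩ := cn_TA hN
  obtain ⟨b0, b1, b2⟩ := cn_TB hN
  unfold numberOfShiftMinimalWinningTypes
  have : typeOf (Base N) '' {S | IsShiftMinimalWinning (Base N) S} =
      {typeOf (Base N) (TA hN), typeOf (Base N) (TB hN)} := by
    ext t
    constructor
    · rintro ⟨S, hS, rfl⟩
      rw [Set.mem_ofPred_eq, shiftMin_base hN] at hS
      rcases hS with h | h
      · left
        rw [typeOf_eq_base hN]
        omega
      · right
        rw [Set.mem_singleton_iff, typeOf_eq_base hN]
        omega
    · rintro (rfl | rfl)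
      · refine ⟨TA hN, ?_, rfl⟩
        rw [Set.mem_ofPred_eq, shiftMin_base hN]
        omega
      · refine ⟨TB hN, ?_, rfl⟩
        rw [Set.mem_ofPred_eq, shiftMin_base hN]
        omega
  rw [this, Set.ncard_pair]
  rw [Ne, typeOf_eq_base hN]
  omega

lemma base_nice (hN : 3 ≤ N) : Nice (Base N) where
  simple := base_simple
  complete := base_complete
  empty := by
    rw [mem_base]
    simp [cn]
  nonempty := by
    obtain ⟨b0, b1, b2⟩ := cn_TB hN
    refine ⟨TB hN, ?_⟩
    rw [mem_base]
    omega
  noVeto := by
    rintro (i | i | i)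
    · refine ⟨mk (univ.erase i) {⟨0, by omega⟩} (univ.erase ⟨0, by omega⟩), ?_, ?_⟩
      · rw [mem_base, cn_mk0, cn_mk1, cn_mk2, Finset.card_erase_of_mem (Finset.mem_univ _),
          Finset.card_erase_of_mem (Finset.mem_univ _)]
        simp
        omega
      · rw [mem_mk0]; simp
    · refine ⟨TA hN, ?_, ?_⟩
      · obtain ⟨a0, a1, a2⟩ := cn_TA hN
        rw [mem_base]
        omega
      · unfold TA
        rw [mem_mk1]; simp
    · refine ⟨mk {0} {⟨0, by omega⟩} (univ.erase i), ?_, ?_⟩
      · rw [mem_base, cn_mk0, cn_mk1, cn_mk2, Finset.card_erase_of_mem (Finset.mem_univ _)]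
        simp
        omega
      · rw [mem_mk2]; simp

/-- double counting -/
lemma sum_cn {j : ℕ} (X : Fin j → Finset (Pl N)) (k : ℕ) :
    ∑ i, cn (X i) k = ∑ v ∈ univ.filter (fun v : Pl N => cl v = k),
      (univ.filter fun i => v ∈ X i).card := by
  have h1 : ∀ i, cn (X i) k = ∑ v ∈ univ.filter (fun v : Pl N => cl v = k),
      if v ∈ X i then 1 else 0 := by
    intro i
    unfold cn
    rw [Finset.sum_boole]
    simp only [Nat.cast_id]
    congr 1
    ext v
    simp [and_comm]
  simp_rw [h1]
  rw [Finset.sum_comm]
  apply Finset.sum_congr rfl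
  intro v _
  rw [Finset.sum_boole]
  simp

lemma sum_cn_eq {j : ℕ} {X Y : Fin j → Finset (Pl N)} (h : IsTradingTransform X Y) (k : ℕ) :
    ∑ i, cn (X i) k = ∑ i, cn (Y i) k := by
  rw [sum_cn, sum_cn]
  exact Finset.sum_congr rfl fun v _ => h v

lemma base_robust (hN : 3 ≤ N) : IsInvariantTradeRobust (Base N) (N - 1) := by
  rintro ⟨j, h1, hj, X, Y, hXY, hX, hY⟩
  have e0 := sum_cn_eq hXY 0
  have e1 := sum_cn_eq hXY 1
  have e2 := sum_cn_eq hXY 2
  have hXf : ∀ i, 2 * N ≤ N * cn (X i) 0 + cn (X i) 1 + cn (X i) 2 := by
    intro i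
    have := (shiftMin_base hN _).mp (hX i)
    rcases this with ⟨h0, h1, h2⟩ | ⟨h0, h1, h2⟩ <;> rw [h0, h1, h2] <;> omega
  have hYf : ∀ i, N * cn (Y i) 0 + cn (Y i) 1 + cn (Y i) 2 ≤ 2 * N := by
    intro i
    have h := hY i
    rw [mem_base] at h
    obtain ⟨c0, c1, c2⟩ := cn_le (Y i)
    have : cn (Y i) 0 = 0 ∨ cn (Y i) 0 = 1 ∨ cn (Y i) 0 = 2 := by omega
    rcases this with h0 | h0 | h0 <;> rw [h0] at h ⊢ <;> omega
  have hsum : ∑ i, (N * cn (X i) 0 + cn (X i) 1 + cn (X i) 2) =
      ∑ i, (N * cn (Y i) 0 + cn (Y i) 1 + cn (Y i) 2) := by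
    simp only [Finset.sum_add_distrib, ← Finset.mul_sum]
    rw [e0, e1, e2]
  have hX2 : ∑ i : Fin j, 2 * N ≤ ∑ i, (N * cn (X i) 0 + cn (X i) 1 + cn (X i) 2) :=
    Finset.sum_le_sum fun i _ => hXf i
  have hY2 : ∑ i, (N * cn (Y i) 0 + cn (Y i) 1 + cn (Y i) 2) ≤ ∑ i : Fin j, 2 * N :=
    Finset.sum_le_sum fun i _ => hYf i
  have hXe : ∀ i, N * cn (X i) 0 + cn (X i) 1 + cn (X i) 2 = 2 * N := by
    have h := (Finset.sum_eq_sum_iff_of_le (s := univ) fun i _ => hXf i).mp (by omega)
    exact fun i => (h i (Finset.mem_univ i)).symm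
  have hYe : ∀ i, N * cn (Y i) 0 + cn (Y i) 1 + cn (Y i) 2 = 2 * N := by
    have h := (Finset.sum_eq_sum_iff_of_le (s := univ) fun i _ => hYf i).mp (by omega)
    exact fun i => h i (Finset.mem_univ i)
  have hX1 : ∀ i, cn (X i) 1 = 1 := by
    intro i
    have h := hXe i
    rcases (shiftMin_base hN _).mp (hX i) with ⟨h0, h1, h2⟩ | ⟨h0, h1, h2⟩
    · rw [h0, h1, h2] at h
      omega
    · exact h1
  have hY1 : ∀ i, N ∣ cn (Y i) 1 := by
    intro i
    have h := hY i
    rw [mem_base] at h
    have h' := hYe i
    obtain ⟨c0, c1, c2⟩ := cn_le (Y i)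
    have : cn (Y i) 0 = 0 ∨ cn (Y i) 0 = 1 ∨ cn (Y i) 0 = 2 := by omega
    have : cn (Y i) 1 = 0 ∨ cn (Y i) 1 = N := by
      rcases this with h0 | h0 | h0 <;> rw [h0] at h h' <;> omega
    rcases this with h3 | h3 <;> rw [h3]
    · exact dvd_zero N
  have hdvd : N ∣ ∑ i, cn (Y i) 1 := Finset.dvd_sum fun i _ => hY1 i
  rw [← e1] at hdvd
  simp only [hX1, Finset.sum_const, Finset.card_univ, Fintype.card_fin, smul_eq_mul,
    mul_one] at hdvd
  have := Nat.le_of_dvd (by omega) hdvd
  omega

lemma base_not_robust (hN : 3 ≤ N) : ¬ IsInvariantTradeRobust (Base N) N := by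
  intro hcon
  apply hcon
  have hcard : ∀ i : Fin N, (univ.filter fun j => j ≠ i).card = N - 1 := by
    intro i
    have : (univ.filter fun j => j ≠ i) = univ.erase i := by
      ext j
      simp
    rw [this, Finset.card_erase_of_mem (Finset.mem_univ _)]
    simp
  refine ⟨N, by omega, le_rfl,
    fun i => mk (if (i : ℕ) = 0 then {1} else {0}) {i} (univ.erase i),
    fun i => if (i : ℕ) = 0 then mk univ ∅ ∅ else
      if (i : ℕ) = 1 then mk ∅ univ univ else mk {0} ∅ univ, ?_, ?_, ?_⟩
  · rintro (v | v | v)
    · have h01 : v = 0 ∨ v = 1 := by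
        fin_cases v <;> simp
      rcases h01 with rfl | rfl
      · have e1 : (univ.filter fun i : Fin N => (Sum.inl 0 : Pl N) ∈
            mk (if (i : ℕ) = 0 then {1} else {0}) {i} (univ.erase i)) =
            univ.filter fun i => i ≠ ⟨0, by omega⟩ := by
          ext i
          simp only [Finset.mem_filter, Finset.mem_univ, true_and, mem_mk0, Ne, Fin.ext_iff]
          by_cases hi : (i : ℕ) = 0 <;> simp [hi]
        have e2 : (univ.filter fun i : Fin N => (Sum.inl 0 : Pl N) ∈
            (if (i : ℕ) = 0 then mk univ ∅ ∅ else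
              if (i : ℕ) = 1 then mk ∅ univ univ else mk {0} ∅ univ : Finset (Pl N))) =
            univ.filter fun i => i ≠ ⟨1, by omega⟩ := by
          ext i
          simp only [Finset.mem_filter, Finset.mem_univ, true_and, Ne, Fin.ext_iff]
          by_cases hi : (i : ℕ) = 0
          · simp [hi, mem_mk0]
          · by_cases hi1 : (i : ℕ) = 1 <;> simp [hi, hi1, mem_mk0]
        rw [e1, e2, hcard, hcard]
      · have e1 : (univ.filter fun i : Fin N => (Sum.inl 1 : Pl N) ∈
            mk (if (i : ℕ) = 0 then {1} else {0}) {i} (univ.erase i)) =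
            {⟨0, by omega⟩} := by
          ext i
          simp only [Finset.mem_filter, Finset.mem_univ, true_and, mem_mk0,
            Finset.mem_singleton, Fin.ext_iff]
          by_cases hi : (i : ℕ) = 0 <;> simp [hi]
        have e2 : (univ.filter fun i : Fin N => (Sum.inl 1 : Pl N) ∈
            (if (i : ℕ) = 0 then mk univ ∅ ∅ else
              if (i : ℕ) = 1 then mk ∅ univ univ else mk {0} ∅ univ : Finset (Pl N))) =
            {⟨0, by omega⟩} := by
          ext i
          simp only [Finset.mem_filter, Finset.mem_univ, true_and, Finset.mem_singleton,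
            Fin.ext_iff]
          by_cases hi : (i : ℕ) = 0
          · simp [hi, mem_mk0]
          · by_cases hi1 : (i : ℕ) = 1 <;> simp [hi, hi1, mem_mk0]
        rw [e1, e2]
    · have e1 : (univ.filter fun i : Fin N => (Sum.inr (Sum.inl v) : Pl N) ∈
          mk (if (i : ℕ) = 0 then {1} else {0}) {i} (univ.erase i)) = {v} := by
        ext i
        simp only [Finset.mem_filter, Finset.mem_univ, true_and, mem_mk1, Finset.mem_singleton]
        exact eq_comm
      have e2 : (univ.filter fun i : Fin N => (Sum.inr (Sum.inl v) : Pl N) ∈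
          (if (i : ℕ) = 0 then mk univ ∅ ∅ else
            if (i : ℕ) = 1 then mk ∅ univ univ else mk {0} ∅ univ : Finset (Pl N))) =
          {⟨1, by omega⟩} := by
        ext i
        simp only [Finset.mem_filter, Finset.mem_univ, true_and, Finset.mem_singleton,
          Fin.ext_iff]
        by_cases hi : (i : ℕ) = 0
        · simp [hi, mem_mk1]
        · by_cases hi1 : (i : ℕ) = 1 <;> simp [hi, hi1, mem_mk1]
      rw [e1, e2, Finset.card_singleton, Finset.card_singleton]
    · have e1 : (univ.filter fun i : Fin N => (Sum.inr (Sum.inr v) : Pl N) ∈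
          mk (if (i : ℕ) = 0 then {1} else {0}) {i} (univ.erase i)) =
          univ.filter fun i => i ≠ v := by
        ext i
        simp only [Finset.mem_filter, Finset.mem_univ, true_and, mem_mk2, Finset.mem_erase,
          and_true]
        exact ne_comm
      have e2 : (univ.filter fun i : Fin N => (Sum.inr (Sum.inr v) : Pl N) ∈
          (if (i : ℕ) = 0 then mk univ ∅ ∅ else
            if (i : ℕ) = 1 then mk ∅ univ univ else mk {0} ∅ univ : Finset (Pl N))) =
          univ.filter fun i => i ≠ ⟨0, by omega⟩ := by
        ext i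
        simp only [Finset.mem_filter, Finset.mem_univ, true_and, Ne, Fin.ext_iff]
        by_cases hi : (i : ℕ) = 0
        · simp [hi, mem_mk2]
        · by_cases hi1 : (i : ℕ) = 1 <;> simp [hi, hi1, mem_mk2]
      rw [e1, e2, hcard, hcard]
  · intro i
    rw [shiftMin_base hN]
    right
    rw [cn_mk0, cn_mk1, cn_mk2, Finset.card_erase_of_mem (Finset.mem_univ _)]
    split_ifs <;> simp
  · intro i
    simp only
    split_ifs with h1 h2
    · rw [mem_base, cn_mk0, cn_mk1, cn_mk2]
      simp
      omega
    · rw [mem_base, cn_mk0, cn_mk1, cn_mk2]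
      simp
    · rw [mem_base, cn_mk0, cn_mk1, cn_mk2]
      simp

end Base

/-- For all `r ≥ 2` and all `m ≥ 2` there is a complete simple game with exactly `r` shift-minimal
winning types that is `m`-invariant trade robust but not `(m + 1)`-invariant trade robust. -/
theorem result (r m : ℕ) (hr : 2 ≤ r) (hm : 2 ≤ m) :
    ∃ (V : Type) (_ : Fintype V) (_ : DecidableEq V) (W : Set (Finset V)),
      IsSimpleGame W ∧ IsComplete W ∧ numberOfShiftMinimalWinningTypes W = r ∧
      IsInvariantTradeRobust W m ∧ ¬ IsInvariantTradeRobust W (m + 1) := by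
  have key : ∃ (V : Type) (_ : Fintype V) (_ : DecidableEq V) (W : Set (Finset V)),
      Nice W ∧ numberOfShiftMinimalWinningTypes W = r ∧
      IsInvariantTradeRobust W m ∧ ¬ IsInvariantTradeRobust W (m + 1) := by
    induction r, hr using Nat.le_induction with
    | base =>
      exact ⟨Pl (m + 1), inferInstance, inferInstance, Base (m + 1), base_nice (by omega),
        number_base (by omega), base_robust (by omega), base_not_robust (by omega)⟩
    | succ r _ ih =>
      obtain ⟨V, i1, i2, W, h1, h2, h3, h4⟩ := ih
      exact ⟨Option (Option V), inferInstance, inferInstance, Ext W, ext_nice h1,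
        by rw [ext_number h1, h2], (ext_robust h1 m).mpr h3,
        fun h => h4 ((ext_robust h1 (m + 1)).mp h)⟩
  obtain ⟨V, i1, i2, W, h1, h2, h3, h4⟩ := key
  exact ⟨V, i1, i2, W, h1.simple, h1.complete, h2, h3, h4⟩

end Pool.Agent.Results.MP_0d0d23_co.AllNumbers
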